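import Pool.Agent.U410.FM.Ana

/-!
Gromov's question for right-angled reflection manifolds with few mirrors.

Let `L` be the flag complex of a finite graph `G` on `V`. If `L` is a flag triangulation of the sphere
of dimension `n - 1` then the quotient `M = Σ/H` of the Davis complex of the right-angled Coxeter group
`W G`, by a torsion-free subgroup `H` of finite index which consists of elements of even length
(`H ≤ (par G).ker`), is a closed oriented aspherical `n`-manifold with fundamental group `H`, tiled by
right-angled cells with `card V` mirrors, and `χ(M) = [W G : H] χ(W G)`. By Gromov's duality principle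
`‖M‖ = 0` if and only if the comparison map `H_b^n(H; ℝ) → H^n(H; ℝ)` is zero (`ZeroSV n H`).

We prove that `‖M‖ = 0` implies `χ(M) = 0` if there are few mirrors: at most `(5 n + 3) / 2` mirrors
(for `n = 4`: at most eleven), or, more generally, if each join factor of `L` of dimension `e - 1` is a
polygon or has at most `3 e - 1` vertices; no other information about `L` is needed. A complex of
dimension `e - 1` which is not a join has at least `3 e - 1` vertices.

Idea: if `χ(W G) ≠ 0` then some join factor is a polygon with at least five vertices, or it has a
vertex `v` with exactly two non-neighbours `a`, `b`, and then they are adjacent,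
`χ = - χ(link of a b) / 4`, and `a b` is in no square: otherwise there are adjacent neighbours `x`, `y`
of `v` such that `v` is adjacent to all other vertices of the link of `x y`. In both cases there is an
edge in no square whose link is again of this kind, with nonzero Euler characteristic. By the theorem
`pos_of_link` (`Pool.Agent.Q134.SV.Cls`) `L` is mapped to the join of this link and a pentagon with
nonzero degree, and by induction there is a bounded cocycle which is nonzero on the fundamental cycle.

Remark: for complexes of dimension three with twelve vertices the method stops (a computer search finds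
one with nonzero Euler characteristic and without a simplicial map of nonzero degree to the join of two
pentagons).
-/

set_option autoImplicit false

open scoped Classical

namespace Pool.Agent.Results.MP_8a95ee_gt.FewMirrors

open Pool.Agent.W907.SG (W chiW)
open Pool.Agent.Q134.SV Pool.Agent.W497.FS Pool.Agent.U410.FM

/-- `n`-dimensional right-angled reflection manifolds with few mirrors: the flag complex of `G` is an
Eulerian normal pseudo-manifold of dimension `n - 1`, and each of its join factors is of dimension at
most one (a polygon or two points) or contains a simplex with `e` vertices, where the number of its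
vertices is at most `3 e - 1`; or the number of all vertices is at most `(5 n + 3) / 2`. -/
def Few (n : ℕ) {V : Type} [Fintype V] (G : SimpleGraph V) : Prop :=
  NP G n (Finset.univ : Finset V) ∧ Eul G n (Finset.univ : Finset V) ∧
  ((∀ C ∈ comps G (Finset.univ : Finset V), (∀ F ∈ cl G C, F.card ≤ 2) ∨
      ∃ F ∈ cl G C, C.card + 1 ≤ 3 * F.card) ∨
    2 * Fintype.card V ≤ 5 * n + 3)

theorem Few.pos {n : ℕ} {V : Type} [Fintype V] {G : SimpleGraph V} (h : Few n G)
    (hχ : chiW G ≠ 0) : Pos n G := by
  obtain ⟨hNP, hE, hc⟩ := h
  rw [chiW_eq_lam] at hχ
  refine pos_main n Finset.univ hNP hE hχ ?_ V G (fun x => x) emb_univ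
  rcases hc with hc | hc
  · intro C hC e he
    rcases hc C hC with h2 | ⟨F, hF, h3⟩
    · left
      obtain ⟨β, hβ, hcard, -⟩ := he.exists_facet
      have := h2 β hβ
      omega
    · right
      have := he.card_le hF
      omega
  · refine fc_of_card hNP hE hχ ?_
    rwa [Finset.card_univ]

/-- (1) Gromov's question has a positive answer for oriented right-angled reflection manifolds with
few mirrors: if every bounded real `(n + 1)`-cocycle of `H` is a coboundary then `χ(W G) = 0`.

(2) If the Euler characteristic of such a reflection group `W G₀` is not zero, and a simplicial map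
from the flag complex of `G` to the flag complex of `G₀` maps some real `n`-cycle to a nonzero cycle,
then there is a bounded real `(n + 1)`-cocycle of `H` which is not a coboundary, for all subgroups `H`
of finite index of `W G` which consist of elements of even length. -/
theorem result :
    (∀ (n : ℕ) (V : Type) [Fintype V] (G : SimpleGraph V), Few (n + 1) G →
      (∃ a : (Fin (n + 1) → V) → ℝ, IsCyc (n + 1) G a ∧ a ≠ 0) →
      ∀ H : Subgroup (W G), H.index ≠ 0 → H ≤ (par G).ker → ZeroSV (n + 1) H → chiW G = 0) ∧
    (∀ (n : ℕ) (V V₀ : Type) [Fintype V] [Fintype V₀] (G : SimpleGraph V) (G₀ : SimpleGraph V₀)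
      (f : V → V₀) (a : (Fin (n + 1) → V) → ℝ), Few (n + 1) G₀ → chiW G₀ ≠ 0 →
      (∀ x y, G.Adj x y → f x = f y ∨ G₀.Adj (f x) (f y)) → IsCyc (n + 1) G a → push f a ≠ 0 →
      ∀ H : Subgroup (W G), H.index ≠ 0 → H ≤ (par G).ker → ¬ ZeroSV (n + 1) H) := by
  refine ⟨?_, ?_⟩
  · rintro n V _ G hG ⟨a, ha, hne⟩ H hH hε hz
    by_contra hχ
    obtain ⟨c, hc, hp⟩ := hG.pos hχ a ha hne
    exact not_zeroSV ha hc hp H hH hε hz
  · intro n V V₀ _ _ G G₀ f a h₀ hχ hf ha hne H hH hε hz
    obtain ⟨c, hc, hp⟩ := pos_of_push f hf (h₀.pos hχ) ha hne
    exact not_zeroSV ha hc hp H hH hε hz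

end Pool.Agent.Results.MP_8a95ee_gt.FewMirrors
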