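import Pool.Agent.U410.CO.Hv
import Pool.Agent.U410.CO.ThinE
import Pool.Agent.N496.CV.L2Pf
import Pool.Agent.N496.CV.Euler

/-!
# Aspherical manifolds of large dimension whose fundamental group embeds in a product of reflection groups

Gromov's question: is the Euler characteristic of a closed aspherical manifold with zero simplicial volume zero? We
show that `χ(M) = 0`, and so the answer is yes, for all closed aspherical manifolds `M` of dimension `q > 2 t` whose
fundamental group embeds, with finite or infinite index, in the torsion free group `Γ = ker (W G → (ℤ/2)^V)` of a finite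
graph `G`, where `t` is an elimination bound of `G` (`Th G t V`: the flag complex of `G` can be built from the empty
complex by cones, by suspensions, and by adding vertices to complexes with the bound `t` along links with the bound
`t - 1`). All the `L²`-Betti numbers of these manifolds vanish, too.

For example let the flag complex of `G` be the join of flag triangulations of spheres of dimensions `n_1 - 1, …,
n_s - 1` in the class `ThinE`; then one can take `t = ⌊n_1 / 2⌋ + ⋯ + ⌊n_s / 2⌋`. The group `Γ` is then the product of the
fundamental groups of closed aspherical reflection manifolds of the dimensions `n_i`. If all the `n_i` are odd and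
`n = n_1 + ⋯ + n_s` then the result is about all the closed aspherical manifolds of dimension `q > n - s` in this
product and its covers (`π_1`-injective). For instance all closed aspherical manifolds of dimension `q > 2 s` whose
fundamental group embeds in a product of `s` such 3-manifold groups have the Euler characteristic zero.

The proof: all the `L²`-Betti numbers of all the subgroups of `Γ` above the degree `t` vanish
(`Pool.Agent.U410.CO.l2_th`), duality (start file library `Pool.Agent.N496.CV`), and Atiyah's formula.
-/

set_option autoImplicit false

namespace Pool.Agent.Results.MP_8a95ee_gt.LargeDualitySubgroups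

open Pool.Agent.W907.SG Pool.Agent.W461.SGN Pool.Agent.N496.CV
open Pool.Agent.U410.CO (ThinE Th)

theorem th_joins {V : Type} [DecidableEq V] (G : SimpleGraph V) {s : ℕ} (A : Fin s → Finset V) (n : Fin s → ℕ)
    (hA : ∀ i j, i ≠ j → ∀ x ∈ A i, ∀ y ∈ A j, G.Adj x y) (hT : ∀ i, ThinE G (n i) (A i)) :
    ∀ S : Finset (Fin s), Th G (∑ i ∈ S, n i / 2) (S.biUnion A) := by
  intro S
  induction S using Finset.induction_on with
  | empty =>
    rw [Finset.biUnion_empty]
    exact Th.empty _
  | @insert i S hi ih =>
    rw [Finset.sum_insert hi, Finset.biUnion_insert]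
    refine Th.join (hT i).th ih ?_
    intro x hx y hy
    obtain ⟨j, hj, hyj⟩ := Finset.mem_biUnion.1 hy
    exact hA i j (fun h => hi (h ▸ hj)) x hx y hyj

/-- Let `G` be a finite graph on `V` with the elimination bound `t`, or let `V` be the union of sets `A i`, `i < s`, any
two of which are joined completely, such that `A i` is in the class `ThinE` with the dimension `n i - 1`, and
`∑ ⌊n i / 2⌋ ≤ t`. Let the subgroup `K` of the kernel of `W G → (ℤ/2)^V`, of finite or infinite index, be a Poincare
duality group of dimension `q > 2 t` (of type FL), for example the fundamental group of a closed aspherical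
`q`-manifold. Then the Euler characteristic of `K`, computed by any resolution `C` of `ℤ` by finitely generated free
modules of finite length `p`, is zero, and all the `L²`-Betti numbers of `K` are zero. -/
theorem result : ∀ (t : ℕ) (V : Type) [Fintype V] [LinearOrder V] (G : SimpleGraph V),
    (Th G t (Finset.univ : Finset V) ∨
      ∃ (s : ℕ) (A : Fin s → Finset V) (n : Fin s → ℕ), (∀ v, ∃ i, v ∈ A i) ∧
        (∀ i j, i ≠ j → ∀ x ∈ A i, ∀ y ∈ A j, G.Adj x y) ∧ (∀ i, ThinE G (n i) (A i)) ∧
        ∑ i, n i / 2 ≤ t) →
    ∀ K : Subgroup (W G), K ≤ (th G).ker → ∀ q : ℕ, 2 * t < q → Nonempty (PD K q) →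
      (∀ (C : V7N.FreeRes K) (p : ℕ), (∀ i, p < i → C.r i = 0) →
        ∑ i ∈ Finset.range (p + 1), (-1 : ℤ) ^ i * (C.r i : ℤ) = 0) ∧
      ∀ k : ℕ, HasL2Betti K k 0 := by
  intro t V _ _ G hG K hK q hq hP
  obtain ⟨P⟩ := hP
  have hT : Th G t (Finset.univ : Finset V) := by
    rcases hG with h | ⟨s, A, n, h1, h2, h3, h4⟩
    · exact h
    · have h5 := th_joins G A n h2 h3 Finset.univ
      have h6 : (Finset.univ : Finset (Fin s)).biUnion A = Finset.univ := by
        ext v
        simp only [Finset.mem_biUnion, Finset.mem_univ, true_and, iff_true]
        exact h1 v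
      rw [h6] at h5
      exact h5.le h4
  have hall : ∀ k : ℕ, VN831.l2Betti K k = 0 := by
    intro k
    rcases Nat.lt_or_ge t k with hk | hk
    · exact Pool.Agent.U410.CO.l2_th hT K hK k hk
    · exact pd_zero P k (q - k) (by omega) (Pool.Agent.U410.CO.l2_th hT K hK (q - k) (by omega))
  refine ⟨fun C p hp => ?_, fun k => ?_⟩
  · have e0 := euler_sign C p 0 hp fun k _ => hall k
    have e1 := euler_sign C p 1 hp fun k _ => hall k
    simp only [pow_zero, one_mul, pow_one, neg_mul, Left.nonneg_neg_iff] at e0 e1
    omega
  · have h := hasL2Betti K k
    rwa [hall k] at h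

end Pool.Agent.Results.MP_8a95ee_gt.LargeDualitySubgroups
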