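import Pool.Agent.U722.FF.Lb6

/-!
# Simplicial volume and Euler characteristic: two-by-two matrices over `ℤ[x_1, ..., x_n]`

Gromov asks whether a closed oriented aspherical manifold `M` with zero simplicial volume has
`χ(M) = 0`. We show `χ(M) = 0` for all closed aspherical manifolds `M` of dimension `q ≥ 3` whose
fundamental group is isomorphic to a subgroup of `GL_2(ℤ[x_1, ..., x_n])` for some `n`. So the answer is yes
for all of them, for every value of the simplicial volume. More generally this holds if `π_1(M)` has a
subgroup of finite index which is isomorphic to such a group; it is proved for all Poincare duality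
groups of dimension `q ≥ 3` (of type FL).

Outline. The `L²`-Betti numbers of such a group `G` vanish in all degrees `k ≥ 2`, since the torsion-free
finitely generated subgroups of `GL_2(ℤ[x_1, ..., x_n])` act on trees with finitely generated abelian
stabilizers of edges and with finitely generated abelian or free stabilizers of vertices
(`Pool.Agent.U722.FF.Str`). By duality all of them vanish, and `χ(G)` is their alternating sum.
-/

set_option autoImplicit false

namespace Pool.Agent.Results.MP_8a95ee_gt.PolynomialMatrixGroups

open Pool.Agent.N496.CV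

/-- `G` has a subgroup of finite index which is isomorphic to a subgroup of
`GL_2(ℤ[x_1, ..., x_n])` for some `n` -/
def VirtuallyLin (G : Type) [Group G] : Prop :=
  ∃ (N : Subgroup G) (n : ℕ) (ρ : N →* GL (Fin 2) (MvPolynomial (Fin n) ℤ)),
    N.index ≠ 0 ∧ Function.Injective ρ

/-- the Euler characteristic: the alternating sum of the ranks in the degrees `≤ p` -/
def euler {G : Type} [Group G] (C : V7N.FreeRes G) (p : ℕ) : ℤ :=
  ∑ i ∈ Finset.range (p + 1), (-1 : ℤ) ^ i * (C.r i : ℤ)

/-- Let `G` be a Poincare duality group of dimension `q` which has a subgroup of finite index isomorphic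
to a subgroup of `GL_2(ℤ[x_1, ..., x_n])`, and let `C` be a free resolution of `ℤ` over `ℤG` by finitely
generated modules of length at most `p`. If `q ≥ 3` then the Euler characteristic of `G` is zero. If
`q = 2` then it is at most zero. -/
theorem result : ∀ (q : ℕ) (G : Type) [Group G], VirtuallyLin G → Nonempty (PD G q) →
    ∀ (C : V7N.FreeRes G) (p : ℕ), (∀ i, p < i → C.r i = 0) →
      (3 ≤ q → euler C p = 0) ∧ (q = 2 → euler C p ≤ 0) := by
  rintro q G _ ⟨N, n, ρ, hN, hρ⟩ ⟨P⟩ C p hp
  have h2 : ∀ k, 2 ≤ k → VN831.l2Betti G k = 0 := fun k hk => U722.FF.L2LIN n G N hN ρ hρ k hk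
  refine ⟨fun hq => U722.FF.euler_zero C p hp (U722.FF.pd_all hq P h2), fun hq => ?_⟩
  refine (U722.FF.euler_one C p hp fun k hk => ?_).1
  rcases Nat.eq_zero_or_pos k with rfl | h
  · exact pd_zero P 0 q (by omega) (h2 q (by omega))
  · exact h2 k (by omega)

end Pool.Agent.Results.MP_8a95ee_gt.PolynomialMatrixGroups
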