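import Mathlib

/-!
# Gromov's question: a sublinear bound for the Euler characteristic in infinitely many dimensions

Let `size ≥ 0` be a function of closed oriented aspherical manifolds with `size N ≤ d size M` for
`d`-sheeted coverings `N → M`, for example the least number of cells of a finite CW complex
homotopy equivalent to `M`. If `‖M₀‖ = 0` and `χ(M₀) ≠ 0` then for every `l` the
product of `M₀` with `l + 1` surfaces of genus two has simplicial volume zero and Euler
characteristic not zero, and it has coverings of all degrees; so `|χ|` is not sublinear in `size` on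
the manifolds of simplicial volume zero, in any even dimension larger than `dim M₀`.
-/

set_option autoImplicit false

namespace Pool.Agent.Results.MP_8a95ee_gt.SublinearEulerSuffices

/-- Closed connected oriented aspherical manifolds with dimension, Euler characteristic, simplicial
volume and a function `size`; `Covers N M d`: `N` is a `d`-sheeted covering of `M`. -/
structure Manifolds where
  Man : Type
  dim : Man → ℕ
  chi : Man → ℤ
  vol : Man → ℝ
  size : Man → ℝ
  prod : Man → Man → Man
  Covers : Man → Man → ℕ → Prop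

/-- The facts used: Poincaré duality in odd dimensions; dimension, Euler characteristic and
simplicial volume for products (Gromov: `‖M × N‖ = 0` if `‖M‖ = 0`) and for coverings; `size` grows
at most linearly in coverings; the surface of genus two has coverings of all degrees. -/
structure Facts (A : Manifolds) : Prop where
  size_nonneg : ∀ M, 0 ≤ A.size M
  odd : ∀ M, Odd (A.dim M) → A.chi M = 0
  dim_prod : ∀ M N, A.dim (A.prod M N) = A.dim M + A.dim N
  chi_prod : ∀ M N, A.chi (A.prod M N) = A.chi M * A.chi N
  vol_prod : ∀ M N, A.vol M = 0 → A.vol (A.prod M N) = 0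
  dim_covers : ∀ N M d, A.Covers N M d → A.dim N = A.dim M
  chi_covers : ∀ N M d, A.Covers N M d → A.chi N = d * A.chi M
  vol_covers : ∀ N M d, A.Covers N M d → A.vol N = d * A.vol M
  size_covers : ∀ N M d, A.Covers N M d → A.size N ≤ d * A.size M
  surface : ∃ S, A.dim S = 2 ∧ A.chi S = -2 ∧
    ∀ M (d : ℕ), 0 < d → ∃ N, A.Covers N (A.prod M S) d

theorem stabilise {A : Manifolds} (h : Facts A) {S : A.Man} (hS1 : A.dim S = 2)
    (hS2 : A.chi S = -2) (M : A.Man) (hv : A.vol M = 0) (hc : A.chi M ≠ 0) (l : ℕ) :
    ∃ P, A.dim P = A.dim M + 2 * l ∧ A.vol P = 0 ∧ A.chi P ≠ 0 := by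
  induction l with
  | zero => exact ⟨M, by simp, hv, hc⟩
  | succ l ih =>
    obtain ⟨P, h1, h2, h3⟩ := ih
    refine ⟨A.prod P S, ?_, h.vol_prod _ _ h2, ?_⟩
    · rw [h.dim_prod, h1, hS1]; ring
    · rw [h.chi_prod, hS2]
      exact mul_ne_zero h3 (by norm_num)

/-- Let `D` be an infinite set of even numbers. Gromov's question has a positive answer in all
dimensions if and only if for every `n ∈ D` and `ε > 0` there is `C` with
`|χ(M)| ≤ ε size(M) + C` for all closed oriented aspherical `n`-manifolds with `‖M‖ = 0`. -/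
theorem result (A : Manifolds) (h : Facts A) (D : Set ℕ) (hD : D.Infinite)
    (hev : ∀ n ∈ D, Even n) :
    (∀ M, A.vol M = 0 → A.chi M = 0) ↔
    (∀ n ∈ D, ∀ ε : ℝ, 0 < ε → ∃ C : ℝ, ∀ M, A.dim M = n → A.vol M = 0 →
      |(A.chi M : ℝ)| ≤ ε * A.size M + C) := by
  constructor
  · intro hc n _ ε hε
    refine ⟨0, fun M _ hv => ?_⟩
    rw [hc M hv]
    have := h.size_nonneg M
    simp only [Int.cast_zero, abs_zero, add_zero]
    positivity
  · intro hb M hv
    by_contra hne
    obtain ⟨S, hS1, hS2, hS3⟩ := h.surface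
    have hM : Even (A.dim M) := by
      rcases Nat.even_or_odd (A.dim M) with h1 | h1
      · exact h1
      · exact absurd (h.odd M h1) hne
    obtain ⟨n, hn, hlt⟩ := hD.exists_gt (A.dim M)
    obtain ⟨a, ha⟩ := hM
    obtain ⟨b, hb'⟩ := hev n hn
    obtain ⟨Q, hQ1, hQ2, hQ3⟩ := stabilise h hS1 hS2 M hv hne (b - a - 1)
    set P := A.prod Q S with hP
    have hPd : A.dim P = n := by
      rw [hP, h.dim_prod, hQ1, hS1]; omega
    have hPv : A.vol P = 0 := h.vol_prod _ _ hQ2
    have hPc : A.chi P ≠ 0 := by
      rw [hP, h.chi_prod, hS2]; exact mul_ne_zero hQ3 (by norm_num)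
    have h1 : (1 : ℝ) ≤ |(A.chi P : ℝ)| := by
      have h2 : (1 : ℤ) ≤ |A.chi P| := Int.one_le_abs hPc
      exact_mod_cast h2
    have hsP := h.size_nonneg P
    have hε : (0 : ℝ) < 1 / (2 * (A.size P + 1)) := by positivity
    obtain ⟨C, hC⟩ := hb n hn _ hε
    obtain ⟨d, hd⟩ := exists_nat_gt (2 * C)
    obtain ⟨N, hN⟩ := hS3 Q (d + 1) (Nat.succ_pos d)
    rw [← hP] at hN
    have h3 := hC N (by rw [h.dim_covers N P _ hN, hPd])
      (by rw [h.vol_covers N P _ hN, hPv, mul_zero])
    rw [h.chi_covers N P _ hN] at h3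
    push_cast at h3
    rw [abs_mul] at h3
    have h4 := h.size_covers N P _ hN
    push_cast at h4
    have hd0 : (0 : ℝ) ≤ d := Nat.cast_nonneg d
    have hd1 : |(d : ℝ) + 1| = d + 1 := abs_of_nonneg (by linarith)
    rw [hd1] at h3
    have h5 : (d : ℝ) + 1 ≤ (d + 1) * |(A.chi P : ℝ)| :=
      le_mul_of_one_le_right (by linarith) h1
    have h6 : 1 / (2 * (A.size P + 1)) * A.size N ≤ (d + 1) / 2 := by
      calc 1 / (2 * (A.size P + 1)) * A.size N
          ≤ 1 / (2 * (A.size P + 1)) * ((d + 1) * (A.size P + 1)) := by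
            refine mul_le_mul_of_nonneg_left (h4.trans ?_) hε.le
            exact mul_le_mul_of_nonneg_left (by linarith) (by linarith)
        _ = (d + 1) / 2 := by
            have : A.size P + 1 ≠ 0 := by positivity
            field_simp
    linarith

end Pool.Agent.Results.MP_8a95ee_gt.SublinearEulerSuffices
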